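import Mathlib
import Pool.Agent.H17.W.Hf

/-!
# Vaught dichotomy for structures without entangled sets
-/

set_option autoImplicit false

namespace Pool.Agent.H17.Old.EntangledSetsV1

open Set

/-- Structures on `ℕ` with `m` binary relations and countably many unary relations (product
topology). -/
abbrev Str (m : ℕ) : Type := (Fin m → ℕ → ℕ → Bool) × (ℕ → ℕ → Bool)

variable {m : ℕ}

/-- Isomorphism of structures on `ℕ`. -/
def Iso (x y : Str m) : Prop :=
  ∃ σ : Equiv.Perm ℕ, (∀ (i : Fin m) (u v : ℕ), y.1 i (σ u) (σ v) = x.1 i u v) ∧
    ∀ k v : ℕ, y.2 k (σ v) = x.2 k v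

/-- `u` and `v` have the same binary relations, in both directions, to `w`. -/
def Alike (x : Str m) (u v w : ℕ) : Prop :=
  ∀ i : Fin m, x.1 i u w = x.1 i v w ∧ x.1 i w u = x.1 i w v

/-- The elements of `A` fall into at most `k` classes with respect to their binary relations to the
elements of `F` outside `A`: at most `k` elements of `A` represent all elements of `A`. -/
def Classes (x : Str m) (k : ℕ) (F A : Set ℕ) : Prop :=
  ∃ T : Finset ℕ, (T : Set ℕ) ⊆ A ∧ T.card ≤ k ∧ ∀ u ∈ A, ∃ v ∈ T, ∀ w ∈ F \ A, Alike x u v w

/-- `S` is entangled: it is infinite, and for every set `A` whose elements fall into finitely many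
classes with respect to the elements outside `A` and which misses infinitely many elements of `S`, the
elements of `S` in `A` are in different classes: any two of them are distinguished by an element
outside `A`. -/
def Entangled (x : Str m) (S : Set ℕ) : Prop :=
  S.Infinite ∧ ∀ A : Set ℕ, (∃ k, Classes x k univ A) → (S \ A).Infinite →
    ∀ u ∈ S ∩ A, ∀ v ∈ S ∩ A, u ≠ v → ∃ w, w ∉ A ∧ ¬ Alike x u v w

/-- The sets displayed by rooted binary decompositions of width at most `k` inside `F`: singletons, and
disjoint unions of two displayed sets, if the elements of the union fall into at most `k` classes with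
respect to the other elements of `F`. -/
inductive Displayed (x : Str m) (k : ℕ) (F : Set ℕ) : Set ℕ → Prop
  | single (v : ℕ) : v ∈ F → Displayed x k F {v}
  | union (A A' : Set ℕ) : Displayed x k F A → Displayed x k F A' → Disjoint A A' →
      Classes x k F (A ∪ A') → Displayed x k F (A ∪ A')

/-- `x` has width at most `k`: all nonempty finite sets `F` are displayed by rooted binary
decompositions of width at most `k` inside `F`. (Bounded width is the same as bounded clique-width or
bounded rank-width of the finite substructures.) -/
def Width (x : Str m) (k : ℕ) : Prop := ∀ F : Set ℕ, F.Finite → F.Nonempty → Displayed x k F F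

/-- `S` is linked: it is infinite, and for every `k` there is a number `b` such that no set `A` whose
elements fall into at most `k` classes with respect to the elements outside `A` cuts `S` into two parts
with more than `b` elements. -/
def Linked (x : Str m) (S : Set ℕ) : Prop :=
  S.Infinite ∧ ∀ k : ℕ, ∃ b : ℕ, ∀ A : Set ℕ, Classes x k univ A →
    (S ∩ A).encard ≤ b ∨ (S \ A).encard ≤ b

/-- `u` and `v` are different, and some binary relation between them does not have its default
value. -/
def Adjacent (δ : Fin m → Bool) (x : Str m) (u v : ℕ) : Prop :=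
  u ≠ v ∧ ∃ i, x.1 i u v ≠ δ i ∨ x.1 i v u ≠ δ i

/-- `x` is sparse: for some default values there is no infinite set of elements of which no two are
separated by a finite set. -/
def Sparse (x : Str m) : Prop :=
  ∃ δ : Fin m → Bool, ∀ S : Set ℕ, (∀ u ∈ S, ∀ v ∈ S, u ≠ v → ∀ Y : Set ℕ, Y.Finite →
    u ∉ Y → v ∉ Y → Relation.ReflTransGen (fun b c => c ∉ Y ∧ Adjacent δ x b c) u v) → S.Finite

theorem displayed_hi {x : Str m} {k : ℕ} {F A : Set ℕ} (h : Displayed x k F A) :
    Pool.H17.W.Hi.Displayed x k F A := by
  induction h with
  | single v hv => exact Pool.H17.W.Hi.Displayed.single v hv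
  | union A A' _ _ hd hc h1 h2 => exact Pool.H17.W.Hi.Displayed.union A A' h1 h2 hd hc

/-- Vaught dichotomy for structures with finitely many binary and countably many unary relations which
have no entangled set.

(1) Let `B` be a Borel isomorphism-invariant set of structures. Then either `B` contains a nonempty
perfect set of pairwise non-isomorphic structures, or there are, up to isomorphism, only countably many
members of `B` without entangled set.
(2) Structures of bounded width, structures without linked set, and sparse structures have no entangled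
set. -/
theorem result (m : ℕ) :
    (∀ B : Set (Str m), @MeasurableSet (Str m) (borel (Str m)) B →
      (∀ x y : Str m, Iso x y → x ∈ B → y ∈ B) →
      (∃ P : Set (Str m), P.Nonempty ∧ Perfect P ∧ P ⊆ B ∧
        ∀ x ∈ P, ∀ y ∈ P, Iso x y → x = y) ∨
      ∃ C : Set (Str m), C.Countable ∧ ∀ x ∈ B, (∀ S, ¬ Entangled x S) → ∃ c ∈ C, Iso x c) ∧
    ∀ x : Str m, ((∃ k, Width x k) ∨ (∀ S, ¬ Linked x S) ∨ Sparse x) → ∀ S, ¬ Entangled x S := by
  constructor
  · intro B hB hinv
    rcases Pool.H17.W.Hi.dich_entangled m B hB hinv with ⟨C, hC, h⟩ | h
    · exact Or.inr ⟨C, hC, fun x hx hx' => h x hx hx'⟩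
    · exact Or.inl h
  · rintro x (⟨k, hk⟩ | h | h) S hS
    · exact Pool.H17.W.Hi.Width.not_entangled (k := k)
        (fun F h1 h2 => displayed_hi (hk F h1 h2)) S hS
    · exact h S (Pool.H17.W.Hi.Entangled.linked hS)
    · exact Pool.H17.W.Hi.Sparse.not_entangled h S hS

end Pool.Agent.H17.Old.EntangledSetsV1
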