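import Mathlib
import Pool.Agent.H17.W.Hf
import Pool.Agent.H5.TS.Thm

/-!
# Vaught dichotomy for structures without entangled sets
-/

set_option autoImplicit false

namespace Pool.Agent.H17.Old.EntangledSetsV2

open Set

/-- Structures on `ℕ` with `m` binary relations and countably many unary relations (product
topology). -/
abbrev Str (m : ℕ) : Type := (Fin m → ℕ → ℕ → Bool) × (ℕ → ℕ → Bool)

variable {m : ℕ}

/-- Isomorphism of structures on `ℕ`. -/
def Iso (x y : Str m) : Prop :=
  ∃ σ : Equiv.Perm ℕ, (∀ (i : Fin m) (u v : ℕ), y.1 i (σ u) (σ v) = x.1 i u v) ∧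
    ∀ k v : ℕ, y.2 k (σ v) = x.2 k v

/-- `u` and `v` have the same binary relations, in both directions, to `w`. -/
def Alike (x : Str m) (u v w : ℕ) : Prop :=
  ∀ i : Fin m, x.1 i u w = x.1 i v w ∧ x.1 i w u = x.1 i w v

/-- The elements of `A` fall into at most `k` classes with respect to their binary relations to the
elements of `F` outside `A`: at most `k` elements of `A` represent all elements of `A`. -/
def Classes (x : Str m) (k : ℕ) (F A : Set ℕ) : Prop :=
  ∃ T : Finset ℕ, (T : Set ℕ) ⊆ A ∧ T.card ≤ k ∧ ∀ u ∈ A, ∃ v ∈ T, ∀ w ∈ F \ A, Alike x u v w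

/-- `S` is entangled: it is infinite, and for every set `A` whose elements fall into finitely many
classes with respect to the elements outside `A` and which misses infinitely many elements of `S`, the
elements of `S` in `A` are in different classes: any two of them are distinguished by an element
outside `A`. -/
def Entangled (x : Str m) (S : Set ℕ) : Prop :=
  S.Infinite ∧ ∀ A : Set ℕ, (∃ k, Classes x k univ A) → (S \ A).Infinite →
    ∀ u ∈ S ∩ A, ∀ v ∈ S ∩ A, u ≠ v → ∃ w, w ∉ A ∧ ¬ Alike x u v w

/-- The sets displayed by rooted binary decompositions of width at most `k` inside `F`: singletons, and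
disjoint unions of two displayed sets, if the elements of the union fall into at most `k` classes with
respect to the other elements of `F`. -/
inductive Displayed (x : Str m) (k : ℕ) (F : Set ℕ) : Set ℕ → Prop
  | single (v : ℕ) : v ∈ F → Displayed x k F {v}
  | union (A A' : Set ℕ) : Displayed x k F A → Displayed x k F A' → Disjoint A A' →
      Classes x k F (A ∪ A') → Displayed x k F (A ∪ A')

/-- `x` has width at most `k`: all nonempty finite sets `F` are displayed by rooted binary
decompositions of width at most `k` inside `F`. (Bounded width is the same as bounded clique-width or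
bounded rank-width of the finite substructures.) -/
def Width (x : Str m) (k : ℕ) : Prop := ∀ F : Set ℕ, F.Finite → F.Nonempty → Displayed x k F F

/-- `S` is linked: it is infinite, and for every `k` there is a number `b` such that no set `A` whose
elements fall into at most `k` classes with respect to the elements outside `A` cuts `S` into two parts
with more than `b` elements. -/
def Linked (x : Str m) (S : Set ℕ) : Prop :=
  S.Infinite ∧ ∀ k : ℕ, ∃ b : ℕ, ∀ A : Set ℕ, Classes x k univ A →
    (S ∩ A).encard ≤ b ∨ (S \ A).encard ≤ b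

/-- `u` and `v` are different, and some binary relation between them does not have its default
value. -/
def Adjacent (δ : Fin m → Bool) (x : Str m) (u v : ℕ) : Prop :=
  u ≠ v ∧ ∃ i, x.1 i u v ≠ δ i ∨ x.1 i v u ≠ δ i

/-- `x` is sparse: for some default values there is no infinite set of elements of which no two are
separated by a finite set. -/
def Sparse (x : Str m) : Prop :=
  ∃ δ : Fin m → Bool, ∀ S : Set ℕ, (∀ u ∈ S, ∀ v ∈ S, u ≠ v → ∀ Y : Set ℕ, Y.Finite →
    u ∉ Y → v ∉ Y → Relation.ReflTransGen (fun b c => c ∉ Y ∧ Adjacent δ x b c) u v) → S.Finite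

/-- The strong Vaught conjecture (for all countable relational languages). -/
def VaughtConjecture : Prop :=
  ∀ (a : ℕ → ℕ) (B : Set (∀ n : ℕ, (Fin (a n) → ℕ) → Bool)),
    @MeasurableSet (∀ n : ℕ, (Fin (a n) → ℕ) → Bool)
      (borel (∀ n : ℕ, (Fin (a n) → ℕ) → Bool)) B →
    (∀ x y : (∀ n : ℕ, (Fin (a n) → ℕ) → Bool),
      (∃ σ : Equiv.Perm ℕ, ∀ (n : ℕ) (t : Fin (a n) → ℕ),
        y n (fun i => σ (t i)) = x n t) → x ∈ B → y ∈ B) →
    (∃ C : Set (∀ n : ℕ, (Fin (a n) → ℕ) → Bool), C.Countable ∧
      ∀ x ∈ B, ∃ c ∈ C, ∃ σ : Equiv.Perm ℕ, ∀ (n : ℕ) (t : Fin (a n) → ℕ),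
        c n (fun i => σ (t i)) = x n t) ∨
    (∃ P : Set (∀ n : ℕ, (Fin (a n) → ℕ) → Bool), P.Nonempty ∧ Perfect P ∧ P ⊆ B ∧
      ∀ x ∈ P, ∀ y ∈ P,
        (∃ σ : Equiv.Perm ℕ, ∀ (n : ℕ) (t : Fin (a n) → ℕ),
          y n (fun i => σ (t i)) = x n t) → x = y)

/-- Two graphs on `ℕ` (given by their adjacency functions) are isomorphic. -/
def GraphIso (x y : ℕ → ℕ → Bool) : Prop := ∃ σ : Equiv.Perm ℕ, ∀ u v : ℕ, y (σ u) (σ v) = x u v

/-- The strong Vaught conjecture for the class `K` of graphs: every Borel isomorphism-invariant subset `B`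
of `K` contains a nonempty perfect set of pairwise non-isomorphic members or has only countably many members
up to isomorphism. -/
def StrongVaught (K : Set (ℕ → ℕ → Bool)) : Prop :=
  ∀ B : Set (ℕ → ℕ → Bool), B ⊆ K → @MeasurableSet (ℕ → ℕ → Bool) (borel (ℕ → ℕ → Bool)) B →
    (∀ x y : ℕ → ℕ → Bool, GraphIso x y → x ∈ B → y ∈ B) →
    (∃ P : Set (ℕ → ℕ → Bool), P.Nonempty ∧ Perfect P ∧ P ⊆ B ∧
      ∀ x ∈ P, ∀ y ∈ P, GraphIso x y → x = y) ∨
    ∃ C : Set (ℕ → ℕ → Bool), C.Countable ∧ ∀ x ∈ B, ∃ c ∈ C, GraphIso x c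

/-- `n` vertices of `G` (the `b i`) are pairwise joined by internally disjoint paths (the `p i j`,
`i < j`) of length at most `r`. -/
def Joined (G : SimpleGraph ℕ) (r n : ℕ) : Prop :=
  ∃ (b : Fin n → ℕ) (p : ∀ i j : Fin n, G.Walk (b i) (b j)), Function.Injective b ∧
    (∀ i j, i < j → (p i j).IsPath ∧ (p i j).length ≤ r) ∧
    ∀ i j i' j', i < j → i' < j' → (i, j) ≠ (i', j') → ∀ x ∈ (p i j).support,
      x ∈ (p i' j').support → (x = b i ∨ x = b j) ∧ (x = b i' ∨ x = b j')

/-- The graphs in which for no `r` there are `f r + 3` vertices pairwise joined by internally disjoint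
paths of length at most `r`. -/
def Profile (f : ℕ → ℕ) : Set (ℕ → ℕ → Bool) :=
  {x | ∃ G : SimpleGraph ℕ, (∀ u v, x u v = true ↔ G.Adj u v) ∧ ∀ r, ¬ Joined G r (f r + 3)}

theorem displayed_hi {x : Str m} {k : ℕ} {F A : Set ℕ} (h : Displayed x k F A) :
    Pool.H17.W.Hi.Displayed x k F A := by
  induction h with
  | single v hv => exact Pool.H17.W.Hi.Displayed.single v hv
  | union A A' _ _ hd hc h1 h2 => exact Pool.H17.W.Hi.Displayed.union A A' h1 h2 hd hc

section Transport

open Pool.H22.D Pool.H63.MQ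

private def toM (x : ℕ → ℕ → Bool) : Mx (Fin 1 → Bool) := fun u v _ => x u v

private def ofM (y : Mx (Fin 1 → Bool)) : ℕ → ℕ → Bool := fun u v => y u v 0

private theorem to_of (y : Mx (Fin 1 → Bool)) : toM (ofM y) = y := by
  funext u v i
  rw [Subsingleton.elim i 0]
  rfl

private theorem of_to (x : ℕ → ℕ → Bool) : ofM (toM x) = x := rfl

private theorem toM_cont : Continuous toM :=
  continuous_pi fun u => continuous_pi fun v => continuous_pi fun _ =>
    (continuous_apply v).comp (continuous_apply u)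

private theorem ofM_cont : Continuous ofM :=
  continuous_pi fun u => continuous_pi fun v =>
    (continuous_apply (0 : Fin 1)).comp ((continuous_apply v).comp (continuous_apply u))

private theorem iso_toM (x y : ℕ → ℕ → Bool) : IsoM (toM x) (toM y) ↔ GraphIso x y := by
  refine exists_congr fun σ => ⟨fun h u v => congrFun (h u v) 0, fun h u v => ?_⟩
  funext i
  exact h u v

private theorem graphIso_refl (x : ℕ → ℕ → Bool) : GraphIso x x := ⟨Equiv.refl ℕ, fun _ _ => rfl⟩

private theorem sv_iff_mx (K : Set (ℕ → ℕ → Bool)) : SV (toM '' K) ↔ StrongVaught K := by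
  have hp0 : PolishSpace (ℕ → Bool) :=
    { toSecondCountableTopology := inferInstance
      toIsCompletelyMetrizableSpace := TopologicalSpace.IsCompletelyMetrizableSpace.pi_countable }
  have hp : PolishSpace (ℕ → ℕ → Bool) := inferInstance
  have hp1 : PolishSpace (Fin 1 → Bool) := inferInstance
  have hp2 : PolishSpace (ℕ → Fin 1 → Bool) := inferInstance
  have hp3 : PolishSpace (Mx (Fin 1 → Bool)) := inferInstance
  constructor
  · intro h B hBK hB hinv
    have hB' : @MeasurableSet (Mx (Fin 1 → Bool)) (borel (Mx (Fin 1 → Bool))) (ofM ⁻¹' B) := by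
      borelize (Mx (Fin 1 → Bool)) (ℕ → ℕ → Bool)
      exact ofM_cont.measurable hB
    rcases h (ofM ⁻¹' B) (fun y hy => ⟨ofM y, hBK hy, to_of y⟩) hB' (fun x y hxy hx => by
      refine hinv _ _ ((iso_toM _ _).1 ?_) hx
      rw [to_of, to_of]
      exact hxy) with ⟨D, hD, h1⟩ | h1
    · right
      refine ⟨ofM '' D, hD.image _, fun x hx => ?_⟩
      obtain ⟨c, hc, hxc⟩ := h1 (toM x) hx
      refine ⟨ofM c, ⟨c, hc, rfl⟩, (iso_toM _ _).1 ?_⟩
      rw [to_of]
      exact hxc
    · left
      obtain ⟨φ, h2, h3, h4⟩ := cfam_of_pset h1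
      have h5 : CFam GraphIso B := ⟨fun s => ofM (φ s), ofM_cont.comp h2, h3, fun s s' hs => h4 s s' (by
        have h6 := (iso_toM _ _).2 hs
        rwa [to_of, to_of] at h6)⟩
      exact pset_of_cfam graphIso_refl h5
  · intro h B hBK hB hinv
    have hB' : @MeasurableSet (ℕ → ℕ → Bool) (borel (ℕ → ℕ → Bool)) (toM ⁻¹' B) := by
      borelize (Mx (Fin 1 → Bool)) (ℕ → ℕ → Bool)
      exact toM_cont.measurable hB
    rcases h (toM ⁻¹' B) (fun x hx => by
        obtain ⟨x', hx', h1⟩ := hBK hx
        have h2 : x' = x := by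
          have h3 := congrArg ofM h1
          exact h3
        exact h2 ▸ hx') hB' (fun x y hxy hx => hinv _ _ ((iso_toM x y).2 hxy) hx) with h1 | ⟨C, hC, h1⟩
    · right
      obtain ⟨φ, h2, h3, h4⟩ := cfam_of_pset (E := GraphIso) h1
      exact pset_of_cfam isoM_equiv.refl ⟨fun s => toM (φ s), toM_cont.comp h2, h3,
        fun s s' hs => h4 s s' ((iso_toM _ _).1 hs)⟩
    · left
      refine ⟨toM '' C, hC.image _, fun x hx => ?_⟩
      obtain ⟨c, hc, hxc⟩ := h1 (ofM x) (by
        show toM (ofM x) ∈ B
        rw [to_of]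
        exact hx)
      refine ⟨toM c, ⟨c, hc, rfl⟩, ?_⟩
      have h2 := (iso_toM _ _).2 hxc
      rwa [to_of] at h2

private theorem profile_eq (f : ℕ → ℕ) : toM '' Profile f = Pool.H5.TS.Cf f := by
  ext y
  constructor
  · rintro ⟨x, ⟨G, h1, h2⟩, rfl⟩
    exact ⟨G, h1, h2⟩
  · rintro ⟨G, h1, h2⟩
    exact ⟨ofM y, ⟨G, h1, h2⟩, to_of y⟩

private theorem q1_iff : Q1 ↔ VaughtConjecture := by
  constructor
  · intro h a B hB hinv
    rcases h a B hB hinv with ⟨C, hC, h1⟩ | h1
    · exact Or.inl ⟨C, hC, fun x hx => h1 x hx (mem_univ x)⟩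
    · exact Or.inr h1
  · intro h a B hB hinv
    rcases h a B hB hinv with ⟨C, hC, h1⟩ | h1
    · exact Or.inl ⟨C, hC, fun x hx _ => h1 x hx⟩
    · exact Or.inr h1

private theorem profile_sv (f : ℕ → ℕ) : StrongVaught (Profile f) ↔
    ¬ Filter.Tendsto f Filter.atTop Filter.atTop ∨ VaughtConjecture := by
  rw [← sv_iff_mx, profile_eq, ← q1_iff]
  exact Pool.H5.TS.profile_dichotomy f

end Transport

/-- Vaught dichotomy for structures with finitely many binary and countably many unary relations which
have no entangled set, and its limit for graphs.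

(1) Let `B` be a Borel isomorphism-invariant set of structures. Then either `B` contains a nonempty
perfect set of pairwise non-isomorphic structures, or there are, up to isomorphism, only countably many
members of `B` without entangled set.
(2) Structures of bounded width, structures without linked set, and sparse structures have no entangled
set.
(3) For every function `f`, the strong Vaught conjecture for `Profile f` holds if and only if `f` does not
tend to infinity or the full strong Vaught conjecture holds. -/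
theorem result :
    (∀ m : ℕ, (∀ B : Set (Str m), @MeasurableSet (Str m) (borel (Str m)) B →
      (∀ x y : Str m, Iso x y → x ∈ B → y ∈ B) →
      (∃ P : Set (Str m), P.Nonempty ∧ Perfect P ∧ P ⊆ B ∧
        ∀ x ∈ P, ∀ y ∈ P, Iso x y → x = y) ∨
      ∃ C : Set (Str m), C.Countable ∧ ∀ x ∈ B, (∀ S, ¬ Entangled x S) → ∃ c ∈ C, Iso x c) ∧
    ∀ x : Str m, ((∃ k, Width x k) ∨ (∀ S, ¬ Linked x S) ∨ Sparse x) → ∀ S, ¬ Entangled x S) ∧
    ∀ f : ℕ → ℕ, StrongVaught (Profile f) ↔
      ¬ Filter.Tendsto f Filter.atTop Filter.atTop ∨ VaughtConjecture := by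
  refine ⟨fun m => ⟨?_, ?_⟩, profile_sv⟩
  · intro B hB hinv
    rcases Pool.H17.W.Hi.dich_entangled m B hB hinv with ⟨C, hC, h⟩ | h
    · exact Or.inr ⟨C, hC, fun x hx hx' => h x hx hx'⟩
    · exact Or.inl h
  · rintro x (⟨k, hk⟩ | h | h) S hS
    · exact Pool.H17.W.Hi.Width.not_entangled (k := k)
        (fun F h1 h2 => displayed_hi (hk F h1 h2)) S hS
    · exact h S (Pool.H17.W.Hi.Entangled.linked hS)
    · exact Pool.H17.W.Hi.Sparse.not_entangled h S hS

end Pool.Agent.H17.Old.EntangledSetsV2
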